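import Pool.Agent.Q72.OK.Stm

/-! # Project OK: JOB R, entire homogeneous coordinates without common zeros -/

set_option autoImplicit false

namespace Pool.Agent.Q14.OK

open Metric Filter Topology
open Pool.Agent.Q72.OK

theorem order_ne_top {f : ℂ → ℂ} (hf : Differentiable ℂ f) (hne : ∃ z, f z ≠ 0) (z : ℂ) :
    analyticOrderAt f z ≠ ⊤ := by
  intro h
  rw [analyticOrderAt_eq_top] at h
  have han : AnalyticOnNhd ℂ f Set.univ := hf.differentiableOn.analyticOnNhd isOpen_univ
  have h1 := han.eqOn_zero_of_preconnected_of_eventuallyEq_zero isPreconnected_univ (Set.mem_univ z) h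
  obtain ⟨w, hw⟩ := hne
  exact hw (h1 (Set.mem_univ w))

theorem ne_zero_near {f : ℂ → ℂ} {z : ℂ} (hf : AnalyticAt ℂ f z) (h : analyticOrderAt f z ≠ ⊤) :
    ∀ᶠ w in 𝓝[≠] z, f w ≠ 0 := by
  rcases hf.eventually_eq_zero_or_eventually_ne_zero with h1 | h1
  · exact absurd (analyticOrderAt_eq_top.2 h1) h
  · exact h1

theorem fin_zeros {f : ℂ → ℂ} (hf : Differentiable ℂ f) (hne : ∃ z, f z ≠ 0) (R : ℝ) :
    ({z | f z = 0} ∩ closedBall (0 : ℂ) R).Finite := by
  by_contra hinf
  obtain ⟨z, _, hz⟩ := Set.Infinite.exists_accPt_of_subset_isCompact hinf (isCompact_closedBall 0 R)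
    Set.inter_subset_right
  have h1 := ne_zero_near (hf.analyticAt z) (order_ne_top hf hne z)
  rw [accPt_iff_frequently] at hz
  rw [eventually_nhdsWithin_iff] at h1
  obtain ⟨w, hw, hw2⟩ := (hz.and_eventually h1).exists
  exact hw2 hw.1 hw.2.1

/-- division of analytic germs -/
theorem germ_div {f g : ℂ → ℂ} {z : ℂ} (hf : AnalyticAt ℂ f z) (hg : AnalyticAt ℂ g z)
    (h : analyticOrderAt g z ≤ analyticOrderAt f z) (ht : analyticOrderAt g z ≠ ⊤) :
    ∃ k : ℂ → ℂ, AnalyticAt ℂ k z ∧ ∀ᶠ w in 𝓝 z, f w = g w * k w := by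
  obtain ⟨D, hD⟩ := ENat.ne_top_iff_exists.1 ht
  obtain ⟨u, hu, hu0, hu2⟩ := (hg.analyticOrderAt_eq_natCast).1 hD.symm
  rw [← hD] at h
  obtain ⟨v, hv, hv2⟩ := (natCast_le_analyticOrderAt hf).1 h
  refine ⟨fun w => v w / u w, hv.div hu hu0, ?_⟩
  filter_upwards [hu2, hv2, hu.continuousAt.eventually_ne hu0] with w h1 h2 h3
  rw [h1, h2, smul_eq_mul, smul_eq_mul]
  field_simp

/-- division of entire functions -/
theorem entire_div {f g : ℂ → ℂ} (hf : Differentiable ℂ f) (hg : Differentiable ℂ g)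
    (h : ∀ z, analyticOrderAt g z ≤ analyticOrderAt f z) (ht : ∀ z, analyticOrderAt g z ≠ ⊤) :
    ∃ k : ℂ → ℂ, Differentiable ℂ k ∧ ∀ z, f z = g z * k z := by
  choose H hH hH2 using fun z => germ_div (hf.analyticAt z) (hg.analyticAt z) (h z) (ht z)
  have key : ∀ z, (fun w => H w w) =ᶠ[𝓝 z] H z := by
    intro z
    have h1 := ne_zero_near (hg.analyticAt z) (ht z)
    rw [eventually_nhdsWithin_iff] at h1
    filter_upwards [h1, hH2 z] with w hw1 hw2
    by_cases hwz : w = z
    · rw [hwz]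
    · have h2 := hw1 hwz
      have h3 := (hH2 w).self_of_nhds
      rw [hw2] at h3
      exact (mul_left_cancel₀ h2 h3).symm
  refine ⟨fun w => H w w, fun z => ?_, fun z => (hH2 z).self_of_nhds⟩
  exact ((hH z).congr (key z).symm).differentiableAt

/-- JOB R -/
theorem job_r : S_W → S_R := by
  intro hW n F hF hne
  have hFj : ∀ j, Differentiable ℂ (fun z => F z j) := fun j => (differentiable_pi.1 hF) j
  obtain ⟨z₀, hz₀⟩ := hne
  obtain ⟨j₀, hj₀⟩ : ∃ j, F z₀ j ≠ 0 := by
    by_contra hc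
    push Not at hc
    exact hz₀ (funext hc)
  -- the minimal order
  have hmin : ∀ z, ∃ (d : ℕ) (i : Fin (n + 1)), analyticOrderAt (fun w => F w i) z = d ∧
      ∀ j, (d : ℕ∞) ≤ analyticOrderAt (fun w => F w j) z := by
    intro z
    obtain ⟨i, _, hi⟩ := Finset.exists_min_image (Finset.univ : Finset (Fin (n + 1)))
      (fun j => analyticOrderAt (fun w => F w j) z) ⟨j₀, Finset.mem_univ _⟩
    have ht : analyticOrderAt (fun w => F w i) z ≠ ⊤ := by
      intro htop
      have h1 := hi j₀ (Finset.mem_univ _)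
      rw [htop, top_le_iff] at h1
      exact order_ne_top (hFj j₀) ⟨z₀, hj₀⟩ z h1
    obtain ⟨d, hd⟩ := ENat.ne_top_iff_exists.1 ht
    refine ⟨d, i, hd.symm, fun j => ?_⟩
    rw [hd]
    exact hi j (Finset.mem_univ _)
  choose D I hD hDle using hmin
  have hfin : ∀ R : ℝ, ({z | D z ≠ 0} ∩ closedBall (0 : ℂ) R).Finite := by
    intro R
    refine (fin_zeros (hFj j₀) ⟨z₀, hj₀⟩ R).subset ?_
    rintro z ⟨hz, hzR⟩
    refine ⟨?_, hzR⟩
    have h1 : analyticOrderAt (fun w => F w j₀) z ≠ 0 := by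
      intro h0
      have h2 := hDle z j₀
      rw [h0] at h2
      have h3 : D z = 0 := by
        have := nonpos_iff_eq_zero.1 h2
        exact_mod_cast this
      exact hz h3
    exact apply_eq_zero_of_analyticOrderAt_ne_zero (f := fun w => F w j₀) h1
  obtain ⟨g, hg, hgD⟩ := hW D hfin
  have hgt : ∀ z, analyticOrderAt g z ≠ ⊤ := fun z => by
    rw [hgD]
    exact ENat.natCast_ne_top _
  have hdiv : ∀ j, ∃ k : ℂ → ℂ, Differentiable ℂ k ∧ ∀ z, F z j = g z * k z := fun j =>
    entire_div (hFj j) hg (fun z => by rw [hgD]; exact hDle z j) hgt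
  choose G hG hFG using hdiv
  refine ⟨g, fun z j => G j z, hg, differentiable_pi.2 fun j => hG j, fun z => ?_, fun z h0 => ?_⟩
  · funext j
    rw [Pi.smul_apply, smul_eq_mul]
    exact hFG j z
  · have h1 : analyticOrderAt (fun w => F w (I z)) z = D z := hD z
    have h2 : (fun w => F w (I z)) = g * G (I z) := by
      funext w
      exact hFG (I z) w
    rw [h2, analyticOrderAt_mul (hg.analyticAt z) ((hG (I z)).analyticAt z), hgD] at h1
    have h3 : analyticOrderAt (G (I z)) z = 0 := by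
      by_contra hc
      have ht : analyticOrderAt (G (I z)) z ≠ ⊤ := by
        intro htop
        rw [htop, add_top] at h1
        exact ENat.natCast_ne_top _ h1.symm
      obtain ⟨e, he⟩ := ENat.ne_top_iff_exists.1 ht
      rw [← he] at h1 hc
      have h4 : D z + e = D z := by exact_mod_cast h1
      have h5 : e = 0 := by omega
      rw [h5] at hc
      exact hc rfl
    rw [analyticOrderAt_eq_zero] at h3
    rcases h3 with h3 | h3
    · exact h3 ((hG (I z)).analyticAt z)
    · exact h3 (congrFun h0 (I z))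

end Pool.Agent.Q14.OK
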